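import Mathlib
import Pool.Agent.Q203.OrthJoin2

open Pool.Agent.Q203.OrthJoin

namespace Pool.Agent.Results.MP_78978c_an.CompletionJoin

/-- `J : F → G` is a Dedekind completion of the Riesz space `F`: an injective linear lattice
homomorphism into a Dedekind complete Riesz space `G` with order dense and majorizing range. -/
def IsDedekindCompletion {F G : Type} [AddCommGroup F] [Lattice F] [Module ℝ F]
    [AddCommGroup G] [Lattice G] [Module ℝ G] (J : F →ₗ[ℝ] G) : Prop :=
  Function.Injective J ∧ (∀ x y : F, J (x ⊔ y) = J x ⊔ J y) ∧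
    (∀ s : Set G, s.Nonempty → BddAbove s → ∃ z : G, IsLUB s z) ∧
    (∀ g : G, 0 < g → ∃ f : F, 0 < J f ∧ J f ≤ g) ∧ (∀ g : G, ∃ f : F, g ≤ J f)

/-- There are Riesz spaces `E` and `F`, with `F` Archimedean, orthogonally additive maps
`S, T : E → F` with a join `V` among the orthogonally additive maps, and a point `x`, such that in
every Dedekind completion `J : F → G` the supremum of `{J (S u) + J (T v) : x = u ⊔ v}` is
different from `J (V x)`. -/
theorem _root_.Pool.Agent.Results.MP_78978c_an.CompletionJoin.result :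
    ∃ (E : Type) (_ : AddCommGroup E) (_ : Lattice E) (_ : IsOrderedAddMonoid E)
      (_ : Module ℝ E) (_ : PosSMulMono ℝ E)
      (F : Type) (_ : AddCommGroup F) (_ : Lattice F) (_ : IsOrderedAddMonoid F)
      (_ : Module ℝ F) (_ : PosSMulMono ℝ F),
      (∀ x y : F, (∀ n : ℕ, n • x ≤ y) → x ≤ 0) ∧
      ∃ S T V : E → F, OrthAdd S ∧ OrthAdd T ∧ IsJoin S T V ∧
        ∃ x : E, ∀ (G : Type) [AddCommGroup G] [Lattice G] [IsOrderedAddMonoid G]
          [Module ℝ G] [PosSMulMono ℝ G] (J : F →ₗ[ℝ] G), IsDedekindCompletion J →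
          ∀ r : G, IsLUB (J '' Splits S T x) r → r ≠ J (V x) := by
  refine ⟨Dom, inferInstance, inferInstance, inferInstance, inferInstance, inferInstance,
    C(Tr, ℝ), inferInstance, inferInstance, inferInstance, inferInstance, inferInstance,
    ?_, op 1, op (-1), 0, op_orth 1, op_orth (-1), join_zero, one, ?_⟩
  · intro x y h t
    by_contra hcon
    push Not at hcon
    have hcon' : 0 < x t := hcon
    obtain ⟨n, hn⟩ := exists_nat_gt (y t / x t)
    have h1 := h n t
    have h2 : (n : ℝ) * x t ≤ y t := by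
      have h3 : (n • x) t = (n : ℝ) * x t := by simp
      rw [← h3]
      exact h1
    rw [div_lt_iff₀ hcon'] at hn
    linarith
  · intro G _ _ _ _ _ J hJ r hr heq
    have hmono : ∀ a b : C(Tr, ℝ), a ≤ b → J a ≤ J b := by
      intro a b hab
      have h1 := hJ.2.1 a b
      rw [sup_eq_right.2 hab] at h1
      rw [h1]
      exact le_sup_left
    have h1 : r ≤ J (cst (-(1 / 2))) := by
      refine hr.2 ?_
      rintro _ ⟨w, hw, rfl⟩
      exact hmono _ _ (split_le w hw)
    have h2 : J ((0 : Dom → C(Tr, ℝ)) one) = 0 := by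
      simp
    rw [heq, h2] at h1
    have h3 : J (cst (-(1 / 2))) ≤ 0 := by
      have h4 : cst (-(1 / 2)) ≤ 0 := by
        intro t
        change -(1 / 2 : ℝ) ≤ 0
        norm_num
      have h5 := hmono _ _ h4
      rwa [map_zero] at h5
    have h4 : J (cst (-(1 / 2))) = J 0 := by
      rw [map_zero]
      exact le_antisymm h3 h1
    have h5 := hJ.1 h4
    have h6 := congrArg (fun f : C(Tr, ℝ) => f ([] : List (ℕ × Om))) h5
    change -(1 / 2 : ℝ) = 0 at h6
    norm_num at h6

end Pool.Agent.Results.MP_78978c_an.CompletionJoin
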